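import Mathlib

/-! Unit distances among points of 3-space with no four on a plane. -/

set_option autoImplicit false

namespace Pool.Agent.MP_8b47e7_co.H27

/-- No four points of `P` lie on a common plane: every plane (affine subspace whose direction has
dimension two) contains at most three points of `P`. -/
def GeneralPosition (P : Finset (EuclideanSpace ℝ (Fin 3))) : Prop :=
  ∀ H : AffineSubspace ℝ (EuclideanSpace ℝ (Fin 3)), Module.finrank ℝ H.direction = 2 →
    {p | p ∈ P ∧ p ∈ H}.ncard ≤ 3

/-- The number of unit distances of `P`: unordered pairs of points of `P` at distance one. -/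
noncomputable def unitDistances (P : Finset (EuclideanSpace ℝ (Fin 3))) : ℕ :=
  {e : Sym2 (EuclideanSpace ℝ (Fin 3)) |
    ∃ p ∈ P, ∃ q ∈ P, dist p q = 1 ∧ e = s(p, q)}.ncard

/-- The largest number of unit distances of an `n`-point set in general position. -/
noncomputable def u3 (n : ℕ) : ℕ :=
  sSup {k : ℕ | ∃ P : Finset (EuclideanSpace ℝ (Fin 3)),
    P.card = n ∧ GeneralPosition P ∧ unitDistances P = k}

end Pool.Agent.MP_8b47e7_co.H27
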